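import Pool.Agent.Lib.MP_7ed551_gt.Cy.Q.Top

/-!
A monotone Lagrangian torus inside the ball `π (|z₁|² + |z₂|²) < 6 λ` is Hamiltonian isotopic to
the Clifford torus or to the Chekanov torus.
-/

open scoped ContDiff
open Set Real

namespace Pool.Agent.Results.MP_7ed551_gt.Ball

open Pool.Agent.Lib.MP_7ed551_gt

theorem result (f : ℝ × ℝ → ℂ × ℂ) (lam : ℝ) (hl : 0 < lam) (sf : ContDiff ℝ ∞ f)
    (p1 : ∀ x, f (x + (2 * π, 0)) = f x) (p2 : ∀ x, f (x + (0, 2 * π)) = f x)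
    (inj : ∀ x y, f x = f y → ∃ m n : ℤ, y = x + (2 * π * m, 2 * π * n))
    (imm : ∀ x, Function.Injective (fderiv ℝ f x))
    (lag : IsLag f) (mono : IsMonotone f lam)
    (ball : ∀ x, π * (‖(f x).1‖ ^ 2 + ‖(f x).2‖ ^ 2) < 6 * lam) :
    HamIso (range f) (clifford lam) ∨ HamIso (range f) (chekanov lam) :=
  Cy.Q.ball hl ⟨sf, p1, p2, inj, imm, lag⟩ mono ball

end Pool.Agent.Results.MP_7ed551_gt.Ball
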