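import Pool.Agent.Lib.MP_7ed551_gt.Cy.Fib

/-!
A monotone Lagrangian torus which is the image of the Clifford torus under a compactly supported
diffeomorphism that maps the planes `ℂ × {c}` to symplectic surfaces is Hamiltonian isotopic to the
Clifford torus or to the Chekanov torus.
-/

open scoped ContDiff
open Set Real

namespace Pool.Agent.Results.MP_7ed551_gt.Fibred

open Pool.Agent.Lib.MP_7ed551_gt

theorem result (Φ Ψ : ℂ × ℂ → ℂ × ℂ) (lam r : ℝ) (hr : 0 < r) (hl : π * r ^ 2 = 2 * lam)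
    (sΦ : ContDiff ℝ ∞ Φ) (sΨ : ContDiff ℝ ∞ Ψ) (left : ∀ z, Ψ (Φ z) = z) (right : ∀ z, Φ (Ψ z) = z)
    (far : ∃ R : ℝ, ∀ z, R ≤ ‖z‖ → Φ z = z)
    (fib : ∀ z, 0 < om (fderiv ℝ Φ z (1, 0)) (fderiv ℝ Φ z (Complex.I, 0)))
    (f : ℝ × ℝ → ℂ × ℂ)
    (hf : ∀ x, f x = Φ (r * Complex.exp (x.2 * Complex.I), r * Complex.exp (x.1 * Complex.I)))
    (lag : IsLag f) (mono : IsMonotone f lam) :
    HamIso (range f) (clifford lam) ∨ HamIso (range f) (chekanov lam) := by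
  obtain rfl : f = fun x => Φ (Cy.std r x) := funext hf
  exact Cy.fibred hr hl ⟨sΦ, sΨ, left, right, far⟩ fib lag mono

end Pool.Agent.Results.MP_7ed551_gt.Fibred
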